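import Pool.Agent.helper36.V3.SpecW

/-!
# Module v3:FX: parameters with cycles whose multipliers are arbitrarily close to the unit circle
-/

set_option autoImplicit false

open Complex Metric Set Filter Topology MeasureTheory MPS Pool.Agent.helper98.ILF Pool.Agent.helper16.Multibrot

noncomputable section

namespace V3W

theorem FX (hFW : FW_stmt) : FX_stmt := by
  intro n hn c h
  by_contra hc
  obtain ⟨r, hr, hb⟩ := Metric.isOpen_iff.1 (isClosed_closure (s := hyperbolic n)).isOpen_compl c hc
  have hd : Disjoint (ball c r) (hyperbolic n) := by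
    rw [Set.disjoint_left]
    intro x hx hx'
    exact hb hx (subset_closure hx')
  obtain ⟨δ, hδ, h1⟩ := hFW n hn r hr
  obtain ⟨k, z, hk, hz, h2⟩ := h δ hδ
  have h3 := h1 c hd k z hk hz
  linarith

end V3W
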